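import Pool.Agent.N242.VD.Gain

/-!
# Project VD (helper242): corollaries
-/

set_option autoImplicit false

open Metric Set Filter Topology
open scoped RealInnerProductSpace

namespace Pool.Agent.N242.VD.Cor

open Pool.Agent.N242.VD.Gain

variable {H : Type*} [NormedAddCommGroup H] [InnerProductSpace ℝ H] [CompleteSpace H]

/-- Far vectors in the kernel of two functionals. -/
theorem exists_far_ker (hinf : ¬ FiniteDimensional ℝ H) (S : Submodule ℝ H)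
    [FiniteDimensional ℝ S] (f g : H →L[ℝ] ℝ) {τ : ℝ} (hτ : 0 ≤ τ) :
    ∃ δ ∈ Sᗮ, ‖δ‖ = τ ∧ f δ = 0 ∧ g δ = 0 := by
  obtain ⟨v, hv⟩ : ∃ v, v = (InnerProductSpace.toDual ℝ H).symm f := ⟨_, rfl⟩
  obtain ⟨v', hv'⟩ : ∃ v', v' = (InnerProductSpace.toDual ℝ H).symm g := ⟨_, rfl⟩
  have hvf : ∀ z, f z = ⟪v, z⟫ := fun z => by
    rw [hv, InnerProductSpace.toDual_symm_apply]
  have hvg : ∀ z, g z = ⟪v', z⟫ := fun z => by
    rw [hv', InnerProductSpace.toDual_symm_apply]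
  obtain ⟨δ, hδ, hδn⟩ := exists_far hinf (S ⊔ Submodule.span ℝ {v} ⊔ Submodule.span ℝ {v'}) hτ
  rw [← Submodule.inf_orthogonal, ← Submodule.inf_orthogonal] at hδ
  obtain ⟨h1, h2⟩ := Submodule.mem_inf.1 hδ
  obtain ⟨h3, h4⟩ := Submodule.mem_inf.1 h1
  rw [Submodule.mem_orthogonal_singleton_iff_inner_right] at h2 h4
  exact ⟨δ, h3, hδn, by rw [hvf, h4], by rw [hvg, h2]⟩

/-- Hilbert norms gain quadratically. -/
theorem hilbert_gain (hinf : ¬ FiniteDimensional ℝ H) (L : H ≃L[ℝ] H) :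
    ∃ c > 0, ∀ (x : H) (τ : ℝ), 0 < τ → ∀ N : Submodule ℝ H, FiniteDimensional ℝ N →
      ∀ f : H →L[ℝ] ℝ, ∃ δ ∈ Nᗮ, ‖δ‖ = τ ∧ f δ = 0 ∧ ‖L x‖ ^ 2 + c * τ ^ 2 ≤ ‖L (x + δ)‖ ^ 2 := by
  obtain ⟨k, hk⟩ : ∃ k, k = ‖(L.symm : H →L[ℝ] H)‖ + 1 := ⟨_, rfl⟩
  have hk0 : 0 < k := by rw [hk]; positivity
  refine ⟨(k⁻¹) ^ 2, by positivity, fun x τ hτ N hN f => ?_⟩
  obtain ⟨δ, hδ, hδn, hf, hg⟩ := exists_far_ker hinf N f
    ((innerSL ℝ (L x)).comp (L : H →L[ℝ] H)) hτ.le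
  refine ⟨δ, hδ, hδn, hf, ?_⟩
  have h1 : ⟪L x, L δ⟫ = 0 := by simpa using hg
  have h2 : ‖δ‖ ≤ k * ‖L δ‖ := by
    have h3 := (L.symm : H →L[ℝ] H).le_opNorm (L δ)
    simp only [ContinuousLinearEquiv.coe_coe, ContinuousLinearEquiv.symm_apply_apply] at h3
    have h4 : 0 ≤ ‖L δ‖ := norm_nonneg _
    rw [hk]
    nlinarith
  have h5 : k⁻¹ * τ ≤ ‖L δ‖ := by
    rw [inv_mul_le_iff₀ hk0, ← hδn]
    exact h2
  have h6 : (k⁻¹ * τ) ^ 2 ≤ ‖L δ‖ ^ 2 := by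
    have : 0 ≤ k⁻¹ * τ := by positivity
    exact pow_le_pow_left₀ this h5 2
  rw [map_add, norm_add_sq_real, h1]
  rw [mul_pow] at h6
  linarith

/-- **Weighted Voronoi diagrams**, indexed form, for norms with quadratic gain. -/
theorem voronoi {ι : Type*} [Countable ι] (p : Seminorm ℝ H) {C : ℝ} (hp : ∀ x, p x ≤ C * ‖x‖)
    (hgain : ∃ c > 0, ∀ (x : H) (τ : ℝ), 0 < τ → ∀ N : Submodule ℝ H, FiniteDimensional ℝ N →
      ∃ δ ∈ Nᗮ, ‖δ‖ = τ ∧ p x ^ 2 + c * τ ^ 2 ≤ p (x + δ) ^ 2)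
    (T : ι → Set H) (hcl : ∀ i, IsClosed (T i)) (hcv : ∀ i, Convex ℝ (T i))
    (hcov : ∀ x, ∃ i, x ∈ T i) (a : ι → H) (w : ι → ℝ) {R : ℝ}
    (hR : ∀ i, ∀ x ∈ T i, p (x - a i) ≤ R)
    (hV : ∀ i, ∀ x ∈ T i, ∀ j, p (x - a i) ^ 2 + w i ≤ p (x - a j) ^ 2 + w j) : False := by
  obtain ⟨c, hc, hgain⟩ := hgain
  choose I hI using hcov
  obtain ⟨D, hD⟩ : ∃ D : H → ℝ, D = fun x => p (x - a (I x)) ^ 2 + w (I x) := ⟨_, rfl⟩
  have hD1 : ∀ i, ∀ x ∈ T i, D x = p (x - a i) ^ 2 + w i := fun i x hx => by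
    rw [hD]
    exact le_antisymm (hV _ x (hI x) i) (hV i x hx _)
  have hD2 : ∀ x j, D x ≤ p (x - a j) ^ 2 + w j := fun x j => by
    rw [hD]; exact hV _ x (hI x) j
  have hR0 : 0 ≤ R := (apply_nonneg p _).trans (hR _ _ (hI 0))
  obtain ⟨C', hC'⟩ : ∃ C', C' = |C| + 1 := ⟨_, rfl⟩
  have hC'0 : 0 < C' := by rw [hC']; positivity
  have hp' : ∀ x, p x ≤ C' * ‖x‖ := fun x => (hp x).trans (by
    rw [hC']
    have := le_abs_self C
    have h2 := norm_nonneg x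
    nlinarith)
  -- uniform continuity
  have hlip : ∀ x y, D y ≤ D x + p (y - x) * (p (y - x) + 2 * R) := fun x y => by
    have h1 := hD2 y (I x)
    have h2 := hR _ x (hI x)
    have h3 : p (y - a (I x)) ≤ p (y - x) + p (x - a (I x)) := by
      have h4 : y - a (I x) = (y - x) + (x - a (I x)) := by abel
      rw [h4]; exact map_add_le_add p _ _
    have h4 : D x = p (x - a (I x)) ^ 2 + w (I x) := by rw [hD]
    have h5 := apply_nonneg p (y - a (I x))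
    have h6 := apply_nonneg p (x - a (I x))
    have h7 := apply_nonneg p (y - x)
    have h8 : p (y - a (I x)) ^ 2 ≤ (p (y - x) + p (x - a (I x))) ^ 2 :=
      pow_le_pow_left₀ h5 h3 2
    nlinarith
  have hDu : UniformContinuous D := by
    rw [Metric.uniformContinuous_iff]
    intro ε hε
    refine ⟨min (1 / C') (ε / (C' * (1 + 2 * R))), lt_min (by positivity) (by positivity), ?_⟩
    have key : ∀ x y : H, dist x y < min (1 / C') (ε / (C' * (1 + 2 * R))) → D y < D x + ε := by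
      intro x y hxy
      have h1 := hxy.trans_le (min_le_left _ _)
      have h2 := hxy.trans_le (min_le_right _ _)
      rw [lt_div_iff₀ hC'0, dist_comm, dist_eq_norm] at h1
      rw [lt_div_iff₀ (by positivity), dist_comm, dist_eq_norm] at h2
      have h3 := hp' (y - x)
      have h4 := hlip x y
      have h5 := apply_nonneg p (y - x)
      nlinarith
    intro x y hxy
    rw [Real.dist_eq, abs_lt]
    have h1 := key x y hxy
    have h2 := key y x (by rwa [dist_comm])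
    constructor <;> linarith
  refine main hDu hc (𝒯 := range T) (countable_range T) ?_ ?_ ?_ ?_
  · rintro _ ⟨i, rfl⟩; exact hcl i
  · rintro _ ⟨i, rfl⟩; exact hcv i
  · rintro _ ⟨i, rfl⟩ x τ hτ hball N hN
    obtain ⟨δ, hδ, hδn, hδp⟩ := hgain (x - a i) τ hτ N hN
    refine ⟨δ, hδ, hδn, ?_⟩
    have h1 : x + δ ∈ T i := hball (by
      rw [mem_closedBall, dist_eq_norm, add_sub_cancel_left, hδn])
    have h3 : x + δ - a i = x - a i + δ := by abel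
    rw [hD1 i x (hball (mem_closedBall_self hτ.le)), hD1 i _ h1, h3]
    linarith
  · rw [Set.eq_univ_iff_forall]
    exact fun x => ⟨T (I x), mem_range_self _, hI x⟩

/-- **Convex functions** at bounded distance from a Hilbert norm squared. -/
theorem convex_function (hinf : ¬ FiniteDimensional ℝ H) {𝒯 : Set (Set H)}
    (hcount : 𝒯.Countable) (hcl : ∀ T ∈ 𝒯, IsClosed T) (hcv : ∀ T ∈ 𝒯, Convex ℝ T)
    (hcov : ⋃₀ 𝒯 = univ) (L : H ≃L[ℝ] H) {φ : H → ℝ} (hφ : ConvexOn ℝ univ φ) {M : ℝ}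
    (hM : ∀ x, |φ x - ‖L x‖ ^ 2| ≤ M)
    (haff : ∀ T ∈ 𝒯, ∃ (f : H →L[ℝ] ℝ) (e : ℝ), ∀ x ∈ T, φ x = f x + e) : False := by
  obtain ⟨D, hD⟩ : ∃ D : H → ℝ, D = fun x => ‖L x‖ ^ 2 - φ x := ⟨_, rfl⟩
  have hM0 : 0 ≤ M := (abs_nonneg _).trans (hM 0)
  obtain ⟨k, hk⟩ : ∃ k, k = ‖(L : H →L[ℝ] H)‖ := ⟨_, rfl⟩
  have hk0 : 0 ≤ k := by rw [hk]; positivity
  -- Lipschitz estimate
  have hlip : ∀ x y : H, ‖y - x‖ ≤ 1 → D x ≤ D y + (k ^ 2 + 2 * M) * ‖y - x‖ := by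
    intro x y hxy
    by_cases h0 : y = x
    · rw [h0]; simp
    have hs : 0 < ‖y - x‖ := norm_pos_iff.2 (sub_ne_zero.2 h0)
    obtain ⟨s, hs'⟩ : ∃ s, s = ‖y - x‖ := ⟨_, rfl⟩
    rw [← hs'] at hs hxy ⊢
    obtain ⟨z, hz⟩ : ∃ z, z = x + s⁻¹ • (y - x) := ⟨_, rfl⟩
    have hzx : z - x = s⁻¹ • (y - x) := by rw [hz]; abel
    have hzn : ‖z - x‖ = 1 := by
      rw [hzx, norm_smul, norm_inv, Real.norm_of_nonneg hs.le, ← hs', inv_mul_cancel₀ hs.ne']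
    have hy : y = (1 - s) • x + s • z := by
      have h1 : s • (z - x) = y - x := by rw [hzx, smul_inv_smul₀ hs.ne']
      rw [sub_smul, one_smul]
      rw [smul_sub] at h1
      have h2 : (x - s • x) + s • z = x + (s • z - s • x) := by abel
      rw [h2, h1]
      abel
    have h1 : φ y ≤ (1 - s) * φ x + s * φ z := by
      have h2 := hφ.2 (mem_univ x) (mem_univ z) (show 0 ≤ 1 - s by linarith) hs.le
        (by ring)
      rw [← hy] at h2
      simpa using h2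
    have h2 := abs_le.1 (hM x)
    have h3 := abs_le.1 (hM z)
    have h4 : ‖L z‖ ^ 2 = ‖L x‖ ^ 2 + 2 * ⟪L x, L (z - x)⟫ + ‖L (z - x)‖ ^ 2 := by
      have h5 : L z = L x + L (z - x) := by rw [map_sub]; abel
      rw [h5, norm_add_sq_real]
    have h5 : ‖L y‖ ^ 2 = ‖L x‖ ^ 2 + 2 * ⟪L x, L (y - x)⟫ + ‖L (y - x)‖ ^ 2 := by
      have h5 : L y = L x + L (y - x) := by rw [map_sub]; abel
      rw [h5, norm_add_sq_real]
    have h6 : ⟪L x, L (y - x)⟫ = s * ⟪L x, L (z - x)⟫ := by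
      have h7 : y - x = s • (z - x) := by rw [hzx, smul_inv_smul₀ hs.ne']
      rw [h7, map_smul, real_inner_smul_right]
    have h7 : ‖L (z - x)‖ ≤ k := by
      have h8 := (L : H →L[ℝ] H).le_opNorm (z - x)
      rw [hzn, mul_one, ← hk] at h8
      exact h8
    have h8 : ‖L (z - x)‖ ^ 2 ≤ k ^ 2 := pow_le_pow_left₀ (norm_nonneg _) h7 2
    have h9 : 0 ≤ ‖L (y - x)‖ ^ 2 := by positivity
    rw [hD]
    show ‖L x‖ ^ 2 - φ x ≤ ‖L y‖ ^ 2 - φ y + (k ^ 2 + 2 * M) * s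
    rw [h5, h6]
    have h10 : φ z - φ x ≤ 2 * ⟪L x, L (z - x)⟫ + k ^ 2 + 2 * M := by linarith [h2.1, h3.2]
    have h11 : s * (φ z - φ x) ≤ s * (2 * ⟪L x, L (z - x)⟫ + k ^ 2 + 2 * M) :=
      mul_le_mul_of_nonneg_left h10 hs.le
    nlinarith
  have hDu : UniformContinuous D := by
    rw [Metric.uniformContinuous_iff]
    intro ε hε
    have hC : 0 < k ^ 2 + 2 * M + 1 := by positivity
    refine ⟨min 1 (ε / (k ^ 2 + 2 * M + 1)), lt_min one_pos (by positivity), ?_⟩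
    have key : ∀ x y : H, dist x y < min 1 (ε / (k ^ 2 + 2 * M + 1)) → D x < D y + ε := by
      intro x y hxy
      have h1 := hxy.trans_le (min_le_left _ _)
      have h2 := hxy.trans_le (min_le_right _ _)
      rw [dist_comm, dist_eq_norm] at h1
      rw [lt_div_iff₀ hC, dist_comm, dist_eq_norm] at h2
      have h3 := hlip x y h1.le
      have h4 := norm_nonneg (y - x)
      nlinarith
    intro x y hxy
    rw [Real.dist_eq, abs_lt]
    have h1 := key x y hxy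
    have h2 := key y x (by rwa [dist_comm])
    constructor <;> linarith
  obtain ⟨c, hc, hgain⟩ := hilbert_gain hinf L
  refine main hDu hc hcount hcl hcv ?_ hcov
  intro T hT x τ hτ hball N hN
  obtain ⟨f, e, hf⟩ := haff T hT
  obtain ⟨δ, hδ, hδn, hfδ, hδL⟩ := hgain x τ hτ N hN f
  refine ⟨δ, hδ, hδn, ?_⟩
  have h1 : x + δ ∈ T := hball (by
    rw [mem_closedBall, dist_eq_norm, add_sub_cancel_left, hδn])
  rw [hD]
  show ‖L x‖ ^ 2 - φ x + c * τ ^ 2 ≤ ‖L (x + δ)‖ ^ 2 - φ (x + δ)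
  rw [hf x (hball (mem_closedBall_self hτ.le)), hf _ h1, map_add f, hfδ]
  linarith

end Pool.Agent.N242.VD.Cor
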