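import Pool.Agent.N242.VD.Esc

/-!
# Project VD (helper242): no point-finite coverings by balls of bounded radii for norms with
quadratic asymptotic uniform convexity (countable families)
-/

set_option autoImplicit false

open Metric Set Filter Topology
open scoped RealInnerProductSpace

namespace Pool.Agent.N242.VD.Cov

open Pool.Agent.N242.VD.Gain (Term exists_far)
open Pool.Agent.N242.VD.Esc

variable {H : Type*} [NormedAddCommGroup H] [InnerProductSpace ℝ H]

/-- Quadratic asymptotic uniform convexity. -/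
def AUC (p : Seminorm ℝ H) (c : ℝ) : Prop :=
  ∀ (x : H) (η : ℝ), 0 < η → ∃ N : Submodule ℝ H, FiniteDimensional ℝ N ∧
    ∀ δ ∈ Nᗮ, ‖δ‖ ≤ 1 → p x ^ 2 + c * ‖δ‖ ^ 2 ≤ p (x + δ) ^ 2 + η

theorem cover [CompleteSpace H] {ι : Type*} [Countable ι] (hinf : ¬ FiniteDimensional ℝ H)
    (p : Seminorm ℝ H) {c₁ C c R : ℝ} (hc₁ : 0 < c₁) (hp₁ : ∀ x, c₁ * ‖x‖ ≤ p x) (hC : 0 < C)
    (hp₂ : ∀ x, p x ≤ C * ‖x‖) (hc : 0 < c) (hA : AUC p c) (a : ι → H) (r : ι → ℝ)
    (hr0 : ∀ i, 0 < r i) (hrR : ∀ i, r i ≤ R) (hcov : ∀ x, ∃ i, p (x - a i) ≤ r i)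
    (hfin : ∀ x i, p (x - a i) < r i → {j | p (x - a j) ≤ r j}.Finite) : False := by
  obtain ⟨i₀, -⟩ := hcov 0
  have hne : Nonempty ι := ⟨i₀⟩
  have hR : 0 < R := (hr0 i₀).trans_le (hrR i₀)
  obtain ⟨P, hP⟩ : ∃ P : ι → H → ℝ, P = fun i x => p (x - a i) ^ 2 - r i ^ 2 := ⟨_, rfl⟩
  have hPe : ∀ i x, P i x = p (x - a i) ^ 2 - r i ^ 2 := fun i x => by rw [hP]
  have hPb : ∀ i x, -R ^ 2 ≤ P i x := fun i x => by
    rw [hPe]
    nlinarith [hr0 i, hrR i, apply_nonneg p (x - a i)]
  obtain ⟨D, hD⟩ : ∃ D : H → ℝ, D = fun x => ⨅ i, P i x := ⟨_, rfl⟩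
  have hbdd : ∀ x, BddBelow (range fun i => P i x) := fun x =>
    ⟨-R ^ 2, by rintro _ ⟨i, rfl⟩; exact hPb i x⟩
  have hDle : ∀ x i, D x ≤ P i x := fun x i => by rw [hD]; exact ciInf_le (hbdd x) i
  have hleD : ∀ x m, (∀ i, m ≤ P i x) → m ≤ D x := fun x m h => by rw [hD]; exact le_ciInf h
  have hD0 : ∀ x, D x ≤ 0 := fun x => by
    obtain ⟨i, hi⟩ := hcov x
    have h1 := hDle x i
    rw [hPe] at h1
    have h2 : p (x - a i) ^ 2 ≤ r i ^ 2 := pow_le_pow_left₀ (apply_nonneg p _) hi 2
    linarith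
  have hlip : ∀ x y, D y ≤ D x + p (y - x) * (p (y - x) + 2 * (R + 1)) := fun x y => by
    refine le_of_forall_pos_le_add fun ε hε => ?_
    obtain ⟨i, hi⟩ : ∃ i, P i x < D x + min ε 1 := by
      have h1 : (⨅ i, P i x) < D x + min ε 1 := by
        rw [hD]
        have : 0 < min ε 1 := lt_min hε one_pos
        simp only
        linarith
      exact exists_lt_of_ciInf_lt h1
    have h1 : min ε 1 ≤ ε := min_le_left _ _
    have h2 : min ε 1 ≤ 1 := min_le_right _ _
    have h3 := hD0 x
    have h4 := hDle y i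
    have hi' := hi
    rw [hPe] at hi' h4
    have h5 : p (x - a i) ≤ R + 1 := by
      have h6 : p (x - a i) ^ 2 ≤ (R + 1) ^ 2 := by nlinarith [hr0 i, hrR i]
      exact (sq_le_sq₀ (apply_nonneg p _) (by positivity)).1 h6
    have h7 : p (y - a i) ≤ p (y - x) + p (x - a i) := by
      have h8 : y - a i = (y - x) + (x - a i) := by abel
      rw [h8]; exact map_add_le_add p _ _
    have h9 := apply_nonneg p (y - a i)
    have h10 := apply_nonneg p (x - a i)
    have h11 := apply_nonneg p (y - x)
    have h12 : p (y - a i) ^ 2 ≤ (p (y - x) + p (x - a i)) ^ 2 := pow_le_pow_left₀ h9 h7 2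
    nlinarith
  have hDu : UniformContinuous D := by
    rw [Metric.uniformContinuous_iff]
    intro ε hε
    have hK : 0 < 1 + 2 * (R + 1) := by positivity
    refine ⟨min (1 / C) (ε / (C * (1 + 2 * (R + 1)))), lt_min (by positivity) (by positivity), ?_⟩
    have key : ∀ x y : H, dist x y < min (1 / C) (ε / (C * (1 + 2 * (R + 1)))) →
        D y < D x + ε := by
      intro x y hxy
      have h1 := hxy.trans_le (min_le_left _ _)
      have h2 := hxy.trans_le (min_le_right _ _)
      rw [lt_div_iff₀ hC, dist_comm, dist_eq_norm] at h1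
      rw [lt_div_iff₀ (by positivity), dist_comm, dist_eq_norm] at h2
      have h3 := hp₂ (y - x)
      have h4 := hlip x y
      have h5 := apply_nonneg p (y - x)
      nlinarith
    intro x y hxy
    rw [Real.dist_eq, abs_lt]
    have h1 := key x y hxy
    have h2 := key y x (by rwa [dist_comm])
    constructor <;> linarith
  have hpc : Continuous p := by
    rw [Metric.continuous_iff]
    intro x ε hε
    refine ⟨ε / C, by positivity, fun y hy => ?_⟩
    rw [lt_div_iff₀ hC, dist_eq_norm] at hy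
    rw [Real.dist_eq, abs_lt]
    have h1 := hp₂ (y - x)
    have h2 := map_add_le_add p (y - x) x
    rw [sub_add_cancel] at h2
    have h3 := map_add_le_add p (x - y) y
    rw [sub_add_cancel, map_sub_rev] at h3
    constructor <;> linarith
  -- the step length
  obtain ⟨t, ht⟩ : ∃ t : ℝ → ℝ, t = fun τ => min 1 (c₁ ^ 2 * τ ^ 2 / (2 * R * C + c)) := ⟨_, rfl⟩
  have hd : 0 < 2 * R * C + c := by positivity
  have ht0 : ∀ τ, 0 < τ → 0 < t τ := fun τ hτ => by
    rw [ht]; exact lt_min one_pos (by positivity)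
  have ht1 : ∀ τ, t τ ≤ 1 := fun τ => by rw [ht]; exact min_le_left _ _
  have ht2 : ∀ τ, t τ * (2 * R * C + c) ≤ c₁ ^ 2 * τ ^ 2 := fun τ => by
    rw [← le_div_iff₀ hd, ht]; exact min_le_right _ _
  refine main hDu hc (h := fun τ => c / 4 * t τ ^ 2) (fun τ hτ => by
    have := ht0 τ hτ
    positivity) (𝒯 := range fun i => {y | p (y - a i) ≤ r i}) (countable_range _) ?_ ?_ ?_ ?_
  · rintro _ ⟨i, rfl⟩
    exact isClosed_le (hpc.comp (continuous_id.sub continuous_const)) continuous_const
  · rintro _ ⟨i, rfl⟩ x hx y hy s u hs hu hsu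
    show p (s • x + u • y - a i) ≤ r i
    have hx' : p (x - a i) ≤ r i := hx
    have hy' : p (y - a i) ≤ r i := hy
    have h1 : s • x + u • y - a i = s • (x - a i) + u • (y - a i) := by
      have h2 : a i = (s + u) • a i := by rw [hsu, one_smul]
      rw [smul_sub, smul_sub]
      nth_rewrite 1 [h2]
      rw [add_smul]
      abel
    rw [h1]
    have h6 := map_add_le_add p (s • (x - a i)) (u • (y - a i))
    rw [map_smul_eq_mul, map_smul_eq_mul, Real.norm_of_nonneg hs, Real.norm_of_nonneg hu] at h6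
    have h7 : s * p (x - a i) ≤ s * r i := mul_le_mul_of_nonneg_left hx' hs
    have h8 : u * p (y - a i) ≤ u * r i := mul_le_mul_of_nonneg_left hy' hu
    have h9 : s * r i + u * r i = r i := by rw [← add_mul, hsu, one_mul]
    linarith
  · -- the escape
    rintro _ ⟨i, rfl⟩ x N β κ τ hN hβ hτ hκ hT
    by_contra hcon
    push Not at hcon
    have hcon' : ∀ y, ‖y - x‖ ≤ τ → p (y - a i) ≤ r i := fun y hy => hcon y hy
    have h1 : c₁ * τ + p (x - a i) ≤ r i := by
      by_cases hu : x - a i = 0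
      · obtain ⟨e, -, he⟩ := exists_far hinf (⊥ : Submodule ℝ H) hτ.le
        have h2 := hcon' (x + e) (by rw [add_sub_cancel_left, he])
        have h3 : x + e - a i = e := by
          have h4 : x + e - a i = (x - a i) + e := by abel
          rw [h4, hu, zero_add]
        rw [h3] at h2
        have h4 := hp₁ e
        rw [he] at h4
        rw [hu, map_zero]
        linarith
      · have hn : 0 < ‖x - a i‖ := norm_pos_iff.2 hu
        have h2 := hcon' (x + (τ / ‖x - a i‖) • (x - a i)) (by
          rw [add_sub_cancel_left, norm_smul, norm_div, norm_norm, Real.norm_of_nonneg hτ.le,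
            div_mul_cancel₀ _ hn.ne'])
        have h3 : x + (τ / ‖x - a i‖) • (x - a i) - a i =
            (1 + τ / ‖x - a i‖) • (x - a i) := by
          rw [add_smul, one_smul]
          abel
        rw [h3, map_smul_eq_mul, Real.norm_of_nonneg (by positivity), add_mul, one_mul] at h2
        have h4 : c₁ * τ ≤ τ / ‖x - a i‖ * p (x - a i) := by
          rw [div_mul_eq_mul_div, le_div_iff₀ hn]
          have h5 := hp₁ (x - a i)
          nlinarith
        linarith
    have hs : 0 < c₁ * τ := by positivity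
    have hJ : {j | p (x - a j) ≤ r j}.Finite := hfin x i (by linarith)
    have h2 : D x ≤ -(c₁ * τ) ^ 2 := by
      have h3 := hDle x i
      rw [hPe] at h3
      have h4 := apply_nonneg p (x - a i)
      nlinarith
    have ht0' := ht0 τ hτ
    have ht1' := ht1 τ
    have ht2' := ht2 τ
    have hη : 0 < c / 4 * t τ ^ 2 := by positivity
    choose Nf hNf1 hNf2 using fun j => hA (x - a j) (c / 4 * t τ ^ 2) hη
    obtain ⟨M, hM⟩ : ∃ M, M = hJ.toFinset.sup Nf := ⟨_, rfl⟩
    have hMf : FiniteDimensional ℝ M := by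
      rw [hM]
      exact Submodule.finiteDimensional_finset_sup _ _
    obtain ⟨δ, hδ, hδn⟩ := exists_far hinf (N ⊔ M) ht0'.le
    have hδN : δ ∈ Nᗮ := Submodule.orthogonal_le le_sup_left hδ
    have hδM : δ ∈ Mᗮ := Submodule.orthogonal_le le_sup_right hδ
    have h3 : D x + 3 / 4 * c * t τ ^ 2 ≤ D (x + δ) := by
      refine hleD _ _ fun k => ?_
      rw [hPe]
      have h4 : x + δ - a k = x - a k + δ := by abel
      by_cases hk : p (x - a k) ≤ r k
      · have h5 : Nf k ≤ M := by
          rw [hM]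
          exact Finset.le_sup (hJ.mem_toFinset.2 hk)
        have h6 := hNf2 k δ (Submodule.orthogonal_le h5 hδM) (by rw [hδn]; exact ht1')
        rw [hδn] at h6
        have h7 := hDle x k
        rw [hPe] at h7
        rw [h4]
        linarith
      · push Not at hk
        have h5 : p (x - a k) ≤ p (x + δ - a k) + p δ := by
          have h6 : x - a k = (x + δ - a k) + (-δ) := by abel
          have h7 := map_add_le_add p (x + δ - a k) (-δ)
          rw [← h6, map_neg_eq_map] at h7
          exact h7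
        have h6 := hp₂ δ
        rw [hδn] at h6
        have h7 : r k - C * t τ ≤ p (x + δ - a k) := by linarith
        have h8 : -(2 * R * (C * t τ)) ≤ p (x + δ - a k) ^ 2 - r k ^ 2 := by
          have h9 : 0 < C * t τ := by positivity
          have h10 := hr0 k
          have h11 := hrR k
          have h12 := apply_nonneg p (x + δ - a k)
          by_cases h13 : 0 ≤ r k - C * t τ
          · have h14 : (r k - C * t τ) ^ 2 ≤ p (x + δ - a k) ^ 2 := pow_le_pow_left₀ h13 h7 2
            nlinarith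
          · push Not at h13
            nlinarith
        nlinarith
    have h4 := hT δ hδN
    rw [hδn] at h4
    have h5 : 0 < t τ ^ 2 := by positivity
    have hκ' : κ < c / 4 * t τ ^ 2 := hκ
    nlinarith
  · rw [Set.eq_univ_iff_forall]
    intro x
    obtain ⟨i, hi⟩ := hcov x
    exact ⟨_, ⟨i, rfl⟩, hi⟩

end Pool.Agent.N242.VD.Cov
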