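import Pool.Agent.N242.VD.Cov

/-!
# Project VD (helper242): norms with quadratic asymptotic uniform convexity are dense
-/

set_option autoImplicit false

open Metric Set Filter Topology
open scoped RealInnerProductSpace

namespace Pool.Agent.N242.VD.Dense

open Pool.Agent.N242.VD.Cov (AUC)

variable {H : Type*} [NormedAddCommGroup H] [InnerProductSpace ℝ H]

theorem cont (q : Seminorm ℝ H) {C : ℝ} (hC : 0 < C) (hq : ∀ x, q x ≤ C * ‖x‖) :
    Continuous q := by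
  rw [Metric.continuous_iff]
  intro x ε hε
  refine ⟨ε / C, by positivity, fun y hy => ?_⟩
  rw [lt_div_iff₀ hC, dist_eq_norm] at hy
  rw [Real.dist_eq, abs_lt]
  have h1 := hq (y - x)
  have h2 := map_add_le_add q (y - x) x
  rw [sub_add_cancel] at h2
  have h3 := map_add_le_add q (x - y) y
  rw [sub_add_cancel, map_sub_rev] at h3
  constructor <;> linarith

theorem convex_le (q : Seminorm ℝ H) (r : ℝ) : Convex ℝ {y | q y ≤ r} := by
  intro x hx y hy s u hs hu hsu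
  show q (s • x + u • y) ≤ r
  have hx' : q x ≤ r := hx
  have hy' : q y ≤ r := hy
  have h6 := map_add_le_add q (s • x) (u • y)
  rw [map_smul_eq_mul, map_smul_eq_mul, Real.norm_of_nonneg hs, Real.norm_of_nonneg hu] at h6
  have h7 : s * q x ≤ s * r := mul_le_mul_of_nonneg_left hx' hs
  have h8 : u * q y ≤ u * r := mul_le_mul_of_nonneg_left hy' hu
  have h9 : s * r + u * r = r := by rw [← add_mul, hsu, one_mul]
  linarith

/-- Continuous seminorms are asymptotically nondecreasing. -/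
theorem lsc [CompleteSpace H] (q : Seminorm ℝ H) {C : ℝ} (hC : 0 < C) (hq : ∀ x, q x ≤ C * ‖x‖)
    (x : H) {η : ℝ} (hη : 0 < η) :
    ∃ v : H, ∀ δ : H, ⟪v, δ⟫ = 0 → q x ^ 2 ≤ q (x + δ) ^ 2 + η := by
  rcases (apply_nonneg q x).eq_or_lt with h0 | h0
  · exact ⟨0, fun δ _ => by
      rw [← h0]
      have := sq_nonneg (q (x + δ))
      linarith⟩
  obtain ⟨r, hr⟩ : ∃ r, r = q x - min (q x) (η / (2 * q x)) := ⟨_, rfl⟩
  have hm0 : 0 < min (q x) (η / (2 * q x)) := lt_min h0 (by positivity)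
  have hm1 : min (q x) (η / (2 * q x)) ≤ q x := min_le_left _ _
  have hm2 : min (q x) (η / (2 * q x)) ≤ η / (2 * q x) := min_le_right _ _
  rw [le_div_iff₀ (by positivity)] at hm2
  have hrx : r < q x := by rw [hr]; linarith
  have hr0 : 0 ≤ r := by rw [hr]; linarith
  have hr2 : q x ^ 2 ≤ r ^ 2 + η := by
    rw [hr]
    nlinarith
  have hx : x ∉ {y | q y ≤ r} := fun h => by
    have : q x ≤ r := h
    linarith
  obtain ⟨f, u, hfT, hfx⟩ := geometric_hahn_banach_closed_point (convex_le q r)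
    (isClosed_le (cont q hC hq) continuous_const) hx
  refine ⟨(InnerProductSpace.toDual ℝ H).symm f, fun δ hδ => ?_⟩
  rw [InnerProductSpace.toDual_symm_apply] at hδ
  have h1 : r < q (x + δ) := by
    by_contra hcon
    push Not at hcon
    have h2 := hfT (x + δ) hcon
    rw [map_add f, hδ] at h2
    linarith
  have h2 : r ^ 2 ≤ q (x + δ) ^ 2 := pow_le_pow_left₀ hr0 h1.le 2
  linarith

/-- The norm `√(q² + s ‖·‖²)`. -/
noncomputable def root (q : Seminorm ℝ H) (s : ℝ) (hs : 0 ≤ s) : Seminorm ℝ H :=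
  Seminorm.of (fun x => √(q x ^ 2 + s * ‖x‖ ^ 2))
    (by
      intro x y
      have hA : 0 ≤ q x ^ 2 + s * ‖x‖ ^ 2 := by positivity
      have hB : 0 ≤ q y ^ 2 + s * ‖y‖ ^ 2 := by positivity
      have h1 := Real.sq_sqrt hA
      have h2 := Real.sq_sqrt hB
      have h3 := Real.sqrt_nonneg (q x ^ 2 + s * ‖x‖ ^ 2)
      have h4 := Real.sqrt_nonneg (q y ^ 2 + s * ‖y‖ ^ 2)
      have hqx := apply_nonneg q x
      have hqy := apply_nonneg q y
      have hnx := norm_nonneg x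
      have hny := norm_nonneg y
      have h5 : q x * q y + s * (‖x‖ * ‖y‖) ≤
          √(q x ^ 2 + s * ‖x‖ ^ 2) * √(q y ^ 2 + s * ‖y‖ ^ 2) := by
        refine abs_le_of_sq_le_sq' ?_ (by positivity) |>.2
        rw [mul_pow, h1, h2]
        have h6 : 0 ≤ s * (q x * ‖y‖ - q y * ‖x‖) ^ 2 := by positivity
        nlinarith
      refine Real.sqrt_le_iff.2 ⟨by positivity, ?_⟩
      have h7 : q (x + y) ^ 2 ≤ (q x + q y) ^ 2 :=
        pow_le_pow_left₀ (apply_nonneg q _) (map_add_le_add q x y) 2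
      have h8 : ‖x + y‖ ^ 2 ≤ (‖x‖ + ‖y‖) ^ 2 :=
        pow_le_pow_left₀ (norm_nonneg _) (norm_add_le x y) 2
      have h9 : s * ‖x + y‖ ^ 2 ≤ s * (‖x‖ + ‖y‖) ^ 2 := mul_le_mul_of_nonneg_left h8 hs
      nlinarith)
    (by
      intro a x
      have h1 : q (a • x) ^ 2 + s * ‖a • x‖ ^ 2 = ‖a‖ ^ 2 * (q x ^ 2 + s * ‖x‖ ^ 2) := by
        rw [map_smul_eq_mul, norm_smul]
        ring
      rw [h1, Real.sqrt_mul (by positivity), Real.sqrt_sq (norm_nonneg _)])

theorem root_sq (q : Seminorm ℝ H) (s : ℝ) (hs : 0 ≤ s) (x : H) :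
    root q s hs x ^ 2 = q x ^ 2 + s * ‖x‖ ^ 2 := by
  have hA : 0 ≤ q x ^ 2 + s * ‖x‖ ^ 2 := by positivity
  exact Real.sq_sqrt hA

theorem root_auc [CompleteSpace H] (q : Seminorm ℝ H) {C : ℝ} (hC : 0 < C)
    (hq : ∀ x, q x ≤ C * ‖x‖) (s : ℝ) (hs : 0 ≤ s) : AUC (root q s hs) s := by
  intro x η hη
  obtain ⟨v, hv⟩ := lsc q hC hq x hη
  refine ⟨Submodule.span ℝ {v} ⊔ Submodule.span ℝ {x}, inferInstance, fun δ hδ _ => ?_⟩
  rw [← Submodule.inf_orthogonal] at hδ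
  obtain ⟨h1, h2⟩ := Submodule.mem_inf.1 hδ
  rw [Submodule.mem_orthogonal_singleton_iff_inner_right] at h1 h2
  have h3 := hv δ h1
  rw [root_sq, root_sq, norm_add_sq_real, h2]
  nlinarith

/-- Density. -/
theorem dense [CompleteSpace H] (q : Seminorm ℝ H) {c C : ℝ} (hc : 0 < c)
    (hq : ∀ x, c * ‖x‖ ≤ q x ∧ q x ≤ C * ‖x‖) {ε : ℝ} (hε : 0 < ε) :
    ∃ p : Seminorm ℝ H, (∀ x, q x ≤ p x ∧ p x ≤ (1 + ε) * q x) ∧ ∃ s > 0, AUC p s := by
  have hs : 0 < (c * ε) ^ 2 := by positivity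
  refine ⟨root q ((c * ε) ^ 2) hs.le, fun x => ?_, (c * ε) ^ 2, hs, ?_⟩
  · have h1 := root_sq q ((c * ε) ^ 2) hs.le x
    have h2 := apply_nonneg (root q ((c * ε) ^ 2) hs.le) x
    have h3 := apply_nonneg q x
    have h4 := (hq x).1
    have h5 := norm_nonneg x
    constructor
    · refine (sq_le_sq₀ h3 h2).1 ?_
      rw [h1]
      have : 0 ≤ (c * ε) ^ 2 * ‖x‖ ^ 2 := by positivity
      linarith
    · refine (sq_le_sq₀ h2 (by positivity)).1 ?_
      rw [h1]
      have h6 : (c * ‖x‖) ^ 2 ≤ q x ^ 2 := pow_le_pow_left₀ (by positivity) h4 2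
      have h7 : (c * ε) ^ 2 * ‖x‖ ^ 2 = ε ^ 2 * (c * ‖x‖) ^ 2 := by ring
      have h8 : ε ^ 2 * (c * ‖x‖) ^ 2 ≤ ε ^ 2 * q x ^ 2 :=
        mul_le_mul_of_nonneg_left h6 (by positivity)
      rw [h7, mul_pow]
      have h9 : 0 ≤ 2 * ε * q x ^ 2 := by positivity
      nlinarith
  · exact root_auc q (C := |C| + 1) (by positivity) (fun x => (hq x).2.trans (by
      have := le_abs_self C
      have h2 := norm_nonneg x
      nlinarith)) _ hs.le

end Pool.Agent.N242.VD.Dense
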