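import Mathlib

/-!
# Project VD (helper242): coverings of infinite-dimensional Hilbert spaces by countably many convex
sets carry no uniformly continuous function with quadratic gain in far directions
-/

set_option autoImplicit false

open Metric Set Filter Topology
open scoped RealInnerProductSpace

namespace Pool.Agent.N242.VD.Gain

variable {H : Type*} [NormedAddCommGroup H] [InnerProductSpace ℝ H]

/-- Far vectors exist in infinite-dimensional spaces. -/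
theorem exists_far (hinf : ¬ FiniteDimensional ℝ H) (S : Submodule ℝ H) [FiniteDimensional ℝ S]
    {τ : ℝ} (hτ : 0 ≤ τ) : ∃ δ ∈ Sᗮ, ‖δ‖ = τ := by
  have h1 : Sᗮ ≠ ⊥ := by
    intro h
    rw [Submodule.orthogonal_eq_bot_iff] at h
    apply hinf
    subst h
    exact Module.Finite.equiv (Submodule.topEquiv : (⊤ : Submodule ℝ H) ≃ₗ[ℝ] H)
  obtain ⟨v, hv, hv0⟩ := Submodule.exists_mem_ne_zero_of_ne_bot h1
  refine ⟨(τ / ‖v‖) • v, Submodule.smul_mem _ _ hv, ?_⟩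
  rw [norm_smul, norm_div, norm_norm, Real.norm_of_nonneg hτ,
    div_mul_cancel₀ _ (norm_ne_zero_iff.2 hv0)]

/-- A uniformly continuous function has at most linear growth. -/
theorem growth {D : H → ℝ} (hD : UniformContinuous D) :
    ∃ C > 0, ∀ x y : H, D y ≤ D x + C * (‖y - x‖ + 1) := by
  obtain ⟨ε, hε, hε'⟩ := Metric.uniformContinuous_iff.1 hD 1 one_pos
  have key : ∀ (n : ℕ) (x y : H), ‖y - x‖ < (n + 1) * ε → D y ≤ D x + (n + 1) := by
    intro n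
    induction n with
    | zero =>
      intro x y hxy
      have h1 := hε' (a := y) (b := x) (by rw [dist_eq_norm]; simpa using hxy)
      rw [Real.dist_eq] at h1
      have h2 := (abs_lt.1 h1).2
      push_cast
      linarith
    | succ n ih =>
      intro x y hxy
      push_cast at hxy ⊢
      have hn : (0 : ℝ) < n + 1 + 1 := by positivity
      obtain ⟨z, hz⟩ : ∃ z : H, z = x + (((n : ℝ) + 1) / (n + 1 + 1)) • (y - x) := ⟨_, rfl⟩
      have h1 : ‖z - x‖ < (n + 1) * ε := by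
        have h2 : z - x = (((n : ℝ) + 1) / (n + 1 + 1)) • (y - x) := by rw [hz]; abel
        rw [h2, norm_smul, Real.norm_of_nonneg (by positivity), div_mul_eq_mul_div,
          div_lt_iff₀ hn]
        nlinarith
      have h3 : ‖y - z‖ < ε := by
        have h2 : y - z = ((1 : ℝ) / (n + 1 + 1)) • (y - x) := by
          have h4 : ((1 : ℝ) / (n + 1 + 1)) = 1 - ((n : ℝ) + 1) / (n + 1 + 1) := by
            field_simp
            ring
          rw [hz, h4, sub_smul, one_smul]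
          abel
        rw [h2, norm_smul, Real.norm_of_nonneg (by positivity), div_mul_eq_mul_div,
          div_lt_iff₀ hn]
        linarith
      have h4 := ih x z h1
      have h5 := hε' (a := y) (b := z) (by rw [dist_eq_norm]; exact h3)
      rw [Real.dist_eq] at h5
      have h6 := (abs_lt.1 h5).2
      linarith
  refine ⟨1 / ε + 1, by positivity, fun x y => ?_⟩
  obtain ⟨n, hn⟩ : ∃ n : ℕ, n = ⌊‖y - x‖ / ε⌋₊ := ⟨_, rfl⟩
  have h1 : ‖y - x‖ / ε < n + 1 := by rw [hn]; exact Nat.lt_floor_add_one _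
  have h2 : (n : ℝ) ≤ ‖y - x‖ / ε := by rw [hn]; exact Nat.floor_le (by positivity)
  rw [div_lt_iff₀ hε] at h1
  have h3 := key n x y h1
  have h4 : (1 / ε + 1) * (‖y - x‖ + 1) = ‖y - x‖ / ε + 1 + 1 / ε + ‖y - x‖ := by
    field_simp
    ring
  have h5 : 0 < 1 / ε := by positivity
  linarith [norm_nonneg (y - x)]

/-- `x` is nearly terminal: no far move gains more than `β ‖δ‖ ^ 2 + κ`. -/
def Term (D : H → ℝ) (x : H) (N : Submodule ℝ H) (β κ : ℝ) : Prop :=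
  ∀ δ ∈ Nᗮ, D (x + δ) ≤ D x + β * ‖δ‖ ^ 2 + κ

section

variable {D : H → ℝ}

theorem exists_term (hD : UniformContinuous D) (x : H) (N : Submodule ℝ H) {β κ : ℝ} (hβ : 0 < β)
    (hκ : 0 < κ) : ∃ δ ∈ Nᗮ, Term D (x + δ) (N ⊔ Submodule.span ℝ {δ}) β κ ∧
      D x + β * ‖δ‖ ^ 2 - κ ≤ D (x + δ) := by
  obtain ⟨S, hS⟩ : ∃ S : Set ℝ, S = {t | ∃ δ ∈ Nᗮ, D (x + δ) - β * ‖δ‖ ^ 2 = t} := ⟨_, rfl⟩
  obtain ⟨C, hC, hC'⟩ := growth hD
  have hSb : BddAbove S := by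
    refine ⟨D x + C + C ^ 2 / (4 * β), ?_⟩
    rw [hS]
    rintro t ⟨δ, -, rfl⟩
    have h1 := hC' x (x + δ)
    rw [add_sub_cancel_left] at h1
    have h2 : C * ‖δ‖ ≤ β * ‖δ‖ ^ 2 + C ^ 2 / (4 * β) := by
      have h3 : 0 ≤ (2 * β * ‖δ‖ - C) ^ 2 / (4 * β) := by positivity
      have h4 : (2 * β * ‖δ‖ - C) ^ 2 / (4 * β) = β * ‖δ‖ ^ 2 - C * ‖δ‖ + C ^ 2 / (4 * β) := by
        field_simp
        ring
      linarith
    linarith
  have h0 : D x ∈ S := by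
    rw [hS]
    exact ⟨0, Submodule.zero_mem _, by simp⟩
  obtain ⟨t, ht, htS⟩ := exists_lt_of_lt_csSup ⟨_, h0⟩ (show sSup S - κ < sSup S by linarith)
  have ht' := ht
  rw [hS] at ht'
  obtain ⟨δ, hδ, hδt⟩ := ht'
  refine ⟨δ, hδ, ?_, ?_⟩
  · intro δ' hδ'
    rw [← Submodule.inf_orthogonal] at hδ'
    obtain ⟨h1, h2⟩ := Submodule.mem_inf.1 hδ'
    have h3 : ⟪δ, δ'⟫ = 0 := by
      rw [Submodule.mem_orthogonal_singleton_iff_inner_right] at h2
      exact h2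
    have h4 : D (x + (δ + δ')) - β * ‖δ + δ'‖ ^ 2 ≤ sSup S := by
      refine le_csSup hSb ?_
      rw [hS]
      exact ⟨δ + δ', Submodule.add_mem _ hδ h1, rfl⟩
    rw [norm_add_sq_real, h3] at h4
    rw [add_assoc]
    nlinarith
  · have h4 : D x ≤ sSup S := le_csSup hSb h0
    linarith

/-- The function `D` gains `c τ ^ 2` in far directions at the centre of every ball in `T`. -/
def HasGain (D : H → ℝ) (c : ℝ) (T : Set H) : Prop :=
  ∀ (x : H) (τ : ℝ), 0 < τ → closedBall x τ ⊆ T → ∀ N : Submodule ℝ H, FiniteDimensional ℝ N →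
    ∃ δ ∈ Nᗮ, ‖δ‖ = τ ∧ D x + c * τ ^ 2 ≤ D (x + δ)

/-- Escape from `T`. -/
theorem escape {T : Set H} {c : ℝ} (hT : HasGain D c T) {x : H} {N : Submodule ℝ H}
    [FiniteDimensional ℝ N] {β κ τ : ℝ} (hβ : β < c / 2) (hτ : 0 < τ) (hκ : κ < c / 2 * τ ^ 2)
    (hx : Term D x N β κ) : ∃ y, ‖y - x‖ ≤ τ ∧ y ∉ T := by
  by_contra hcon
  push Not at hcon
  obtain ⟨δ, hδ, hδn, hδD⟩ := hT x τ hτ (fun y hy => hcon y (by
    rwa [mem_closedBall, dist_eq_norm] at hy)) N inferInstance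
  have h4 := hx δ hδ
  rw [hδn] at h4
  have h6 : 0 < τ ^ 2 := by positivity
  nlinarith

/-- Good pairs. -/
def Good (D : H → ℝ) (c : ℝ) (x : H) (R : ℝ) : Prop :=
  0 < R ∧ ∃ (N : Submodule ℝ H) (β κ τ : ℝ), FiniteDimensional ℝ N ∧ c / 4 ≤ β ∧ β < c / 2 ∧
    0 < κ ∧ 0 < τ ∧ τ ≤ R / 4 ∧
    (∀ u v, ‖u - v‖ ≤ τ → D u ≤ D v + (c / 2 - β) / 2 * R ^ 2 / 64) ∧
    κ ≤ (c / 2 - β) / 2 * R ^ 2 / 64 ∧ κ < c / 2 * τ ^ 2 ∧ Term D x N β κ

theorem exists_good (hD : UniformContinuous D) {c : ℝ} (hc : 0 < c) (x : H) (N : Submodule ℝ H)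
    [FiniteDimensional ℝ N] {β κ₀ R : ℝ} (hβ : c / 4 ≤ β) (hβ' : β < c / 2) (hR : 0 < R)
    (hκ₀ : 0 < κ₀) :
    ∃ δ ∈ Nᗮ, Good D c (x + δ) R ∧ D x + β * ‖δ‖ ^ 2 - κ₀ ≤ D (x + δ) := by
  obtain ⟨ω, hω⟩ : ∃ ω, ω = (c / 2 - β) / 2 * R ^ 2 / 64 := ⟨_, rfl⟩
  have hω0 : 0 < ω := by
    have : 0 < (c / 2 - β) / 2 := by linarith
    rw [hω]; positivity
  obtain ⟨τ₀, hτ₀, hτ₀'⟩ := Metric.uniformContinuous_iff.1 hD ω hω0
  obtain ⟨τ, hτ⟩ : ∃ τ, τ = min (τ₀ / 2) (R / 4) := ⟨_, rfl⟩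
  have hτ0 : 0 < τ := by rw [hτ]; exact lt_min (by positivity) (by positivity)
  have hτ1 : τ ≤ τ₀ / 2 := by rw [hτ]; exact min_le_left _ _
  have hτ2 : τ ≤ R / 4 := by rw [hτ]; exact min_le_right _ _
  obtain ⟨κ, hκ⟩ : ∃ κ, κ = min κ₀ (min ω (c / 4 * τ ^ 2)) := ⟨_, rfl⟩
  have hκ0 : 0 < κ := by
    rw [hκ]; exact lt_min hκ₀ (lt_min hω0 (by positivity))
  have hκ1 : κ ≤ κ₀ := by rw [hκ]; exact min_le_left _ _
  have hκ2 : κ ≤ ω := by rw [hκ]; exact (min_le_right _ _).trans (min_le_left _ _)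
  have hκ3 : κ ≤ c / 4 * τ ^ 2 := by
    rw [hκ]; exact (min_le_right _ _).trans (min_le_right _ _)
  obtain ⟨δ, hδ, hT, hδD⟩ := exists_term hD x N (show 0 < β by linarith) hκ0
  have h6 : 0 < c * τ ^ 2 := by positivity
  refine ⟨δ, hδ, ⟨hR, N ⊔ Submodule.span ℝ {δ}, β, κ, τ, inferInstance, hβ, hβ', hκ0, hτ0,
    hτ2, fun u v huv => ?_, by linarith, by linarith, hT⟩, by linarith⟩
  have h7 := hτ₀' (a := u) (b := v) (by rw [dist_eq_norm]; linarith)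
  rw [Real.dist_eq] at h7
  have h8 := (abs_lt.1 h7).2
  linarith

/-- The inductive step. -/
theorem step [CompleteSpace H] (hD : UniformContinuous D) {c : ℝ} (hc : 0 < c) {x : H} {R : ℝ}
    (hG : Good D c x R) {T : Set H} (hTg : HasGain D c T) (hTc : IsClosed T)
    (hTx : Convex ℝ T) : ∃ (x' : H) (R' : ℝ), Good D c x' R' ∧ ‖x' - x‖ ≤ R / 2 ∧ R' ≤ R / 2 ∧
      ∀ z, ‖z - x'‖ ≤ R' → z ∉ T := by
  obtain ⟨hR, N, β, κ, τ, hN, hβ0, hβ, hκ0, hτ0, hτR, hτD, hκD, hκτ, hT⟩ := hG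
  obtain ⟨y, hyx, hy⟩ := escape hTg hβ hτ0 hκτ hT
  obtain ⟨f, u, hfT, hfy⟩ := geometric_hahn_banach_closed_point hTx hTc hy
  obtain ⟨v, hv⟩ : ∃ v, v = (InnerProductSpace.toDual ℝ H).symm f := ⟨_, rfl⟩
  have hvf : ∀ z, f z = ⟪v, z⟫ := fun z => by
    rw [hv, InnerProductSpace.toDual_symm_apply]
  obtain ⟨R', hR'⟩ : ∃ R', R' = min (R / 2) ((f y - u) / (2 * (‖f‖ + 1))) := ⟨_, rfl⟩
  have hm : 0 < f y - u := by linarith
  have hd : 0 < 2 * (‖f‖ + 1) := by positivity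
  have hR'0 : 0 < R' := by rw [hR']; exact lt_min (by positivity) (by positivity)
  have hR'1 : R' ≤ R / 2 := by rw [hR']; exact min_le_left _ _
  have hR'2 : R' ≤ (f y - u) / (2 * (‖f‖ + 1)) := by rw [hR']; exact min_le_right _ _
  rw [le_div_iff₀ hd] at hR'2
  obtain ⟨β', hβ'⟩ : ∃ β', β' = β + (c / 2 - β) / 2 := ⟨_, rfl⟩
  obtain ⟨δ, hδ, hG', hδD⟩ := exists_good hD hc y (N ⊔ Submodule.span ℝ {v}) (β := β')
    (κ₀ := (c / 2 - β) / 2 * R ^ 2 / 64) (R := R') (by rw [hβ']; linarith)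
    (by rw [hβ']; linarith) hR'0 (by
      have : 0 < (c / 2 - β) / 2 := by linarith
      positivity)
  rw [← Submodule.inf_orthogonal] at hδ
  obtain ⟨hδN, h2⟩ := Submodule.mem_inf.1 hδ
  rw [Submodule.mem_orthogonal_singleton_iff_inner_right] at h2
  refine ⟨y + δ, R', hG', ?_, hR'1, ?_⟩
  · -- the displacement
    have h3 := hT δ hδN
    have h4 := hτD x y (by rw [norm_sub_rev]; exact hyx)
    have h5 := hτD (y + δ) (x + δ) (by
      have h6 : y + δ - (x + δ) = y - x := by abel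
      rw [h6]; exact hyx)
    have h7 : (c / 2 - β) / 2 * ‖δ‖ ^ 2 ≤ (c / 2 - β) / 2 * (R / 4) ^ 2 := by
      rw [hβ'] at hδD
      nlinarith
    have h8 : ‖δ‖ ^ 2 ≤ (R / 4) ^ 2 := le_of_mul_le_mul_left h7 (by linarith)
    have h9 : ‖δ‖ ≤ R / 4 := (sq_le_sq₀ (norm_nonneg _) (by positivity)).1 h8
    have h10 : y + δ - x = (y - x) + δ := by abel
    rw [h10]
    exact (norm_add_le _ _).trans (by linarith)
  · intro z hz hzT
    have h3 := hfT z hzT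
    have h4 : f z = f y + f (z - (y + δ)) := by
      have h5 : f δ = 0 := by rw [hvf, h2]
      rw [map_sub, map_add, h5]
      ring
    have h5 : -(‖f‖ * R') ≤ f (z - (y + δ)) := by
      have h6 := (abs_le.1 (f.le_opNorm (z - (y + δ)))).1
      have h7 : ‖f‖ * ‖z - (y + δ)‖ ≤ ‖f‖ * R' := mul_le_mul_of_nonneg_left hz (norm_nonneg _)
      linarith
    nlinarith [norm_nonneg f]

/-- **The main theorem.** -/
theorem main [CompleteSpace H] (hD : UniformContinuous D) {c : ℝ} (hc : 0 < c)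
    {𝒯 : Set (Set H)} (hcount : 𝒯.Countable) (hcl : ∀ T ∈ 𝒯, IsClosed T)
    (hcv : ∀ T ∈ 𝒯, Convex ℝ T) (hgain : ∀ T ∈ 𝒯, HasGain D c T) : ⋃₀ 𝒯 ≠ univ := by
  intro hcov
  have hne : 𝒯.Nonempty := by
    obtain ⟨T, hT, -⟩ : (0 : H) ∈ ⋃₀ 𝒯 := by rw [hcov]; trivial
    exact ⟨T, hT⟩
  obtain ⟨e, he⟩ := hcount.exists_eq_range hne
  have heT : ∀ n, e n ∈ 𝒯 := fun n => by rw [he]; exact mem_range_self n
  -- the sequence
  obtain ⟨δ₀, -, hG₀, -⟩ := exists_good hD hc 0 (⊥ : Submodule ℝ H)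
    (β := c / 4) (κ₀ := 1) (R := 1) le_rfl (by linarith) one_pos one_pos
  choose f g hf1 hf2 hf3 hf4 using fun (x : H) (R : ℝ) (h : Good D c x R) (n : ℕ) =>
    step hD hc h (hgain (e n) (heT n)) (hcl (e n) (heT n)) (hcv (e n) (heT n))
  let s : ℕ → {p : H × ℝ // Good D c p.1 p.2} := fun n => Nat.rec ⟨(0 + δ₀, 1), hG₀⟩
    (fun n p => ⟨(f p.1.1 p.1.2 p.2 n, g p.1.1 p.1.2 p.2 n), hf1 _ _ _ _⟩) n
  have hs1 : ∀ n, ‖(s (n + 1)).1.1 - (s n).1.1‖ ≤ (s n).1.2 / 2 := fun n => hf2 _ _ _ _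
  have hs2 : ∀ n, (s (n + 1)).1.2 ≤ (s n).1.2 / 2 := fun n => hf3 _ _ _ _
  have hs3 : ∀ n, ∀ z, ‖z - (s (n + 1)).1.1‖ ≤ (s (n + 1)).1.2 → z ∉ e n :=
    fun n => hf4 _ _ _ _
  have hpos : ∀ n, 0 < (s n).1.2 := fun n => (s n).2.1
  -- the balls are nested
  have hnest : ∀ n, closedBall (s (n + 1)).1.1 (s (n + 1)).1.2 ⊆
      closedBall (s n).1.1 (s n).1.2 := by
    intro n z hz
    rw [mem_closedBall, dist_eq_norm] at hz ⊢
    have h1 := norm_sub_le_norm_sub_add_norm_sub z (s (n + 1)).1.1 (s n).1.1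
    linarith [hs1 n, hs2 n]
  have hR : ∀ n, (s n).1.2 ≤ (1 / 2) ^ n := by
    intro n
    induction n with
    | zero => simp [s]
    | succ n ih =>
      rw [pow_succ]
      linarith [hs2 n]
  have hanti : Antitone fun n => closedBall (s n).1.1 (s n).1.2 := antitone_nat_of_succ_le hnest
  have hcauchy : CauchySeq fun n => (s n).1.1 := by
    refine cauchySeq_of_le_geometric (1 / 2) 1 (by norm_num) fun n => ?_
    rw [dist_comm, dist_eq_norm]
    linarith [hs1 n, hR n, hpos n]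
  obtain ⟨z, hz⟩ := cauchySeq_tendsto_of_complete hcauchy
  have hzb : ∀ n, z ∈ closedBall (s n).1.1 (s n).1.2 := by
    intro n
    refine isClosed_closedBall.mem_of_tendsto hz ?_
    filter_upwards [eventually_ge_atTop n] with k hk
    exact hanti hk (mem_closedBall_self (hpos k).le)
  obtain ⟨T, hT, hzT⟩ : z ∈ ⋃₀ 𝒯 := by rw [hcov]; trivial
  rw [he] at hT
  obtain ⟨n, rfl⟩ := hT
  refine hs3 n z ?_ hzT
  have := hzb (n + 1)
  rwa [mem_closedBall, dist_eq_norm] at this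

end

end Pool.Agent.N242.VD.Gain
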